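import Mathlib

/-!
Definitions for MP_65fbb9_lc (highness classes of oracles).
-/

namespace Pool.Agent.MP_65fbb9_lc

/-- The characteristic function of an oracle `A`. -/
noncomputable def chi (A : Set ℕ) : ℕ → ℕ := A.indicator (fun _ => 1)

/-- The oracle `A` computes the total function `f`, i.e. `f` is Turing reducible to the
characteristic function of `A` (Mathlib's `TuringReducible`). -/
def Computes (A : Set ℕ) (f : ℕ → ℕ) : Prop :=
  TuringReducible (fun n => Part.some (f n)) (fun n => Part.some (chi A n))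

/-- The oracle `A` computes the set `X`. -/
def ComputesSet (A X : Set ℕ) : Prop := Computes A (chi X)

/-- The lower density of `Z`: the limit inferior of `|Z ∩ [0,n)| / n`. -/
noncomputable def lowerDensity (Z : Set ℕ) : ℝ :=
  Filter.liminf (fun n : ℕ => ((Z ∩ Set.Iio n).ncard : ℝ) / (n : ℝ)) Filter.atTop

/-- The set of positions where `X` and `S` agree. -/
def agree (X S : Set ℕ) : Set ℕ := {n | n ∈ X ↔ n ∈ S}

/-- The highness class `D(~_p)`. -/
def DSim (p : ℝ) : Set (Set ℕ) :=
  {A | ∃ X : Set ℕ, ComputesSet A X ∧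
    ∀ S : Set ℕ, ComputablePred (fun n => n ∈ S) → lowerDensity (agree X S) ≤ p}

/-- The highness class `D(≠*, h)`. -/
def DNeq (h : ℕ → ℕ) : Set (Set ℕ) :=
  {A | ∃ x : ℕ → ℕ, Computes A x ∧
    ∀ y : ℕ → ℕ, Computable y → (∀ n, y n < h n) → {n | x n = y n}.Infinite}

end Pool.Agent.MP_65fbb9_lc
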