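import Mathlib
import Pool.Agent.Lib.MP_65fbb9_lc.Defs

/-!
Basic facts about computing from an oracle: if `f n` is computed by a computable function from
`n` and the initial segment of `x` of computable length, then `f` is Turing reducible to `x`.
-/

namespace Pool.Agent.MP_65fbb9_lc

open Encodable

/-- the append step used for building initial segments -/
def appStep (p : ℕ) : ℕ :=
  encode (((decode (α := List ℕ) p.unpair.1).getD []) ++ [p.unpair.2])

theorem appStep_primrec : Primrec appStep := by
  unfold appStep
  refine Primrec.encode.comp ?_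
  refine Primrec.list_append.comp ?_ ?_
  · exact Primrec.option_getD.comp (Primrec.decode.comp (Primrec.fst.comp Primrec.unpair))
      (Primrec.const [])
  · exact Primrec.list_cons.comp (Primrec.snd.comp Primrec.unpair) (Primrec.const [])

theorem prefix_recursiveIn (x : ℕ → ℕ) :
    Nat.RecursiveIn {fun n => Part.some (x n)}
      (fun n => Part.some (encode ((List.range n).map x))) := by
  set O : Set (ℕ →. ℕ) := {fun n => Part.some (x n)} with hO
  have hx : Nat.RecursiveIn O (fun n => Part.some (x n)) := Nat.RecursiveIn.oracle _ (Set.mem_singleton _)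
  have h1 : Nat.RecursiveIn O (fun n => Part.some ((n.unpair.2).unpair.1)) := by
    have : Nat.Primrec (fun n : ℕ => (n.unpair.2).unpair.1) :=
      Nat.Primrec.comp Nat.Primrec.left Nat.Primrec.right
    exact this.recursiveIn
  have h2 : Nat.RecursiveIn O (fun n => Part.some ((n.unpair.2).unpair.2)) := by
    have : Nat.Primrec (fun n : ℕ => (n.unpair.2).unpair.2) :=
      Nat.Primrec.comp Nat.Primrec.right Nat.Primrec.right
    exact this.recursiveIn
  have h3 : Nat.RecursiveIn O (fun n => Part.some (x ((n.unpair.2).unpair.1))) :=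
    (Nat.RecursiveIn.comp hx h1).of_eq (fun n => by simp)
  have h4 : Nat.RecursiveIn O
      (fun n => Part.some (Nat.pair ((n.unpair.2).unpair.2) (x ((n.unpair.2).unpair.1)))) :=
    (Nat.RecursiveIn.pair h2 h3).of_eq (fun n => by simp [Seq.seq])
  have hG : Nat.RecursiveIn O (fun n => Part.some (appStep n)) :=
    (Primrec.nat_iff.1 appStep_primrec).recursiveIn
  have h5 : Nat.RecursiveIn O (fun n => Part.some
      (appStep (Nat.pair ((n.unpair.2).unpair.2) (x ((n.unpair.2).unpair.1))))) :=
    (Nat.RecursiveIn.comp hG h4).of_eq (fun n => by simp)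
  have h0 : Nat.RecursiveIn O (fun _ => Part.some (encode ([] : List ℕ))) :=
    (Nat.Primrec.const _).recursiveIn
  have h6 := Nat.RecursiveIn.prec h0 h5
  have h7 : Nat.RecursiveIn O (fun n => Part.some (Nat.pair 0 n)) := by
    have : Nat.Primrec (fun n : ℕ => Nat.pair 0 n) :=
      Nat.Primrec.pair Nat.Primrec.zero Nat.Primrec.id
    exact this.recursiveIn
  refine (Nat.RecursiveIn.comp h6 h7).of_eq (fun n => ?_)
  simp only [Part.bind_eq_bind, Part.bind_some, Nat.unpair_pair]
  induction n with
  | zero => simp
  | succ n ih =>
    simp only [ih]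
    simp [appStep, List.range_succ]

/-- Functions computed from initial segments of `x` are Turing reducible to `x`. -/
theorem reducible_of_prefix (x : ℕ → ℕ) (F : ℕ × List ℕ → ℕ) (hF : Computable F)
    (u : ℕ → ℕ) (hu : Computable u) :
    TuringReducible (fun n => Part.some (F (n, (List.range (u n)).map x)))
      (fun n => Part.some (x n)) := by
  refine RecursiveIn.iff_nat.2 ?_
  set O : Set (ℕ →. ℕ) := {fun n => Part.some (x n)} with hO
  have hp := prefix_recursiveIn x
  have hu' : Nat.RecursiveIn O (fun n => Part.some (u n)) := by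
    have := (Partrec.nat_iff.1 hu.partrec)
    exact this.recursiveIn
  have h1 : Nat.RecursiveIn O
      (fun n => Part.some (encode ((List.range (u n)).map x))) :=
    (Nat.RecursiveIn.comp hp hu').of_eq (fun n => by simp)
  have hid : Nat.RecursiveIn O (fun n => Part.some n) := Nat.Primrec.id.recursiveIn
  have h2 : Nat.RecursiveIn O
      (fun n => Part.some (Nat.pair n (encode ((List.range (u n)).map x)))) :=
    (Nat.RecursiveIn.pair hid h1).of_eq (fun n => by simp [Seq.seq])
  let F' : ℕ → ℕ := fun m => F (m.unpair.1, (decode (α := List ℕ) m.unpair.2).getD [])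
  have hF' : Computable F' := by
    refine hF.comp (Computable.pair ?_ ?_)
    · exact (Primrec.fst.comp Primrec.unpair).to_comp
    · exact (Primrec.option_getD.comp (Primrec.decode.comp (Primrec.snd.comp Primrec.unpair))
        (Primrec.const [])).to_comp
  have h3 : Nat.RecursiveIn O (fun n => Part.some (F' n)) :=
    (Partrec.nat_iff.1 hF'.partrec).recursiveIn
  refine (Nat.RecursiveIn.comp h3 h2).of_eq (fun n => ?_)
  simp [F']

theorem Computes.of_prefix {A : Set ℕ} {x : ℕ → ℕ} (hx : Computes A x) (F : ℕ × List ℕ → ℕ)
    (hF : Computable F) (u : ℕ → ℕ) (hu : Computable u) :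
    Computes A (fun n => F (n, (List.range (u n)).map x)) :=
  (reducible_of_prefix x F hF u hu).trans hx

end Pool.Agent.MP_65fbb9_lc
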