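import Mathlib
import Pool.Agent.Lib.MP_65fbb9_lc.Defs
import Pool.Agent.Lib.MP_65fbb9_lc.Oracle

/-!
The two-stage serving argument: `D(≠*, 2^(2^n)) ⊆ D(≠*, 2^(n!))`.
-/

namespace Pool.Agent.MP_65fbb9_lc

open Encodable

/-! ### Counting and selection -/

theorem exists_rank (p : ℕ → Prop) [DecidablePred p] (n M : ℕ) (h : M < Nat.count p n) :
    ∃ e < n, p e ∧ Nat.count p e = M := by
  induction n with
  | zero => simp at h
  | succ n ih =>
    by_cases h' : M < Nat.count p n
    · obtain ⟨e, he, hpe, hc⟩ := ih h'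
      exact ⟨e, by omega, hpe, hc⟩
    · rw [Nat.count_succ] at h
      by_cases hp : p n
      · simp only [hp, if_true] at h
        exact ⟨n, by omega, hp, by omega⟩
      · simp only [hp, if_false] at h
        omega

/-- Elements whose rank (within their class) is exactly `M` are rare. -/
theorem count_rank_mul_le {β : Type*} [DecidableEq β] (B : ℕ → β) (M n : ℕ) :
    Nat.count (fun i => Nat.count (fun i' => B i' = B i) i = M) n * (M + 1) ≤ n := by
  classical
  set S := (Finset.range n).filter (fun i => Nat.count (fun i' => B i' = B i) i = M) with hS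
  have hcard : Nat.count (fun i => Nat.count (fun i' => B i' = B i) i = M) n = S.card := by
    rw [Nat.count_eq_card_filter_range]
  set T : ℕ → Finset ℕ := fun e => (Finset.range n).filter (fun i => B i = B e) with hT
  have hT1 : ∀ e ∈ S, M + 1 ≤ (T e).card := by
    intro e he
    simp only [hS, Finset.mem_filter, Finset.mem_range] at he
    have : Nat.count (fun i' => B i' = B e) (e + 1) = M + 1 := by
      rw [Nat.count_succ]; simp [he.2]
    rw [← this]
    have h2 : (T e).card = Nat.count (fun i' => B i' = B e) n := by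
      rw [Nat.count_eq_card_filter_range]
    rw [h2]
    exact Nat.count_monotone _ (by omega)
  have hdis : ∀ e ∈ S, ∀ e' ∈ S, e ≠ e' → Disjoint (T e) (T e') := by
    intro e he e' he' hne
    have key : B e ≠ B e' := by
      intro hB
      simp only [hS, Finset.mem_filter, Finset.mem_range] at he he'
      have h1 := he.2
      have h2 := he'.2
      rw [hB] at h1
      rcases lt_or_gt_of_ne hne with h | h
      · have : Nat.count (fun i' => B i' = B e') (e + 1) ≤ Nat.count (fun i' => B i' = B e') e' :=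
          Nat.count_monotone _ h
        rw [Nat.count_succ] at this
        simp only [hB, if_true] at this
        omega
      · have : Nat.count (fun i' => B i' = B e') (e' + 1) ≤ Nat.count (fun i' => B i' = B e') e :=
          Nat.count_monotone _ h
        rw [Nat.count_succ] at this
        simp only [if_true] at this
        omega
    rw [Finset.disjoint_left]
    intro a ha ha'
    simp only [hT, Finset.mem_filter] at ha ha'
    exact key (ha.2.symm.trans ha'.2)
  have h1 : S.card * (M + 1) ≤ (S.biUnion T).card := by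
    rw [Finset.card_biUnion hdis, ← smul_eq_mul]
    exact Finset.card_nsmul_le_sum _ _ _ hT1
  have h2 : (S.biUnion T).card ≤ n := by
    have : S.biUnion T ⊆ Finset.range n := by
      intro a ha
      simp only [Finset.mem_biUnion, hT, Finset.mem_filter] at ha
      obtain ⟨_, _, h, _⟩ := ha
      exact h
    simpa using Finset.card_le_card this
  rw [hcard]
  exact h1.trans h2

/-- bounded selection of the element of rank `j` -/
def sel (p : ℕ → Prop) [DecidablePred p] (n j : ℕ) : ℕ :=
  Nat.findGreatest (fun i => p i ∧ Nat.count p i = j) n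

theorem sel_eq (p : ℕ → Prop) [DecidablePred p] {n i : ℕ} (hi : i ≤ n) (hp : p i) :
    sel p n (Nat.count p i) = i := by
  have h := Nat.findGreatest_spec (P := fun i' => p i' ∧ Nat.count p i' = Nat.count p i) hi
    ⟨hp, rfl⟩
  exact Nat.count_injective h.1 hp h.2

/-! ### Encoding of guesses -/

/-- first component of a decoded guess -/
def dec1 (v : ℕ) : List ℕ := ((decode (α := List ℕ × List ℕ) v).getD ([], [])).1

/-- second component of a decoded guess -/
def dec2 (v : ℕ) : List ℕ := ((decode (α := List ℕ × List ℕ) v).getD ([], [])).2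

theorem dec1_encode (l l' : List ℕ) : dec1 (encode (l, l')) = l := by simp [dec1]

theorem dec2_encode (l l' : List ℕ) : dec2 (encode (l, l')) = l' := by simp [dec2]

/-- initial segment of `b` of length `n` -/
def pre (b : ℕ → ℕ) (n : ℕ) : List ℕ := (List.range n).map b

theorem pre_getD (b : ℕ → ℕ) {m n : ℕ} (h : m < n) : (pre b n).getD m 0 = b m := by
  simp [pre, List.getD, h]

theorem encode_list_lt (c : ℕ) (l : List ℕ) (h : ∀ a ∈ l, a < 2 ^ c) :
    encode l < 2 ^ (2 ^ l.length * (c + 1) - 1) := by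
  induction l with
  | nil => simp
  | cons a l ih =>
    have ih' := ih (fun a ha => h a (List.mem_cons_of_mem _ ha))
    have ha := h a (List.mem_cons_self ..)
    rw [Encodable.encode_list_cons]
    simp only [encode_nat, List.length_cons]
    set e := 2 ^ l.length * (c + 1) - 1 with he
    have h1 : 1 ≤ 2 ^ l.length := Nat.one_le_two_pow
    have h2 : c + 1 ≤ 2 ^ l.length * (c + 1) := Nat.le_mul_of_pos_left _ (by omega)
    have hce : c ≤ e := by omega
    have ha' : a < 2 ^ e := lt_of_lt_of_le ha (Nat.pow_le_pow_right (by norm_num) hce)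
    have h3 : Nat.pair a (encode l) < (max a (encode l) + 1) ^ 2 := Nat.pair_lt_max_add_one_sq _ _
    have h4 : max a (encode l) + 1 ≤ 2 ^ e := by
      rcases le_total a (encode l) with h | h
      · rw [max_eq_right h]; omega
      · rw [max_eq_left h]; omega
    have h5 : (max a (encode l) + 1) ^ 2 ≤ 2 ^ (2 * e) := by
      calc (max a (encode l) + 1) ^ 2 ≤ (2 ^ e) ^ 2 := Nat.pow_le_pow_left h4 2
        _ = 2 ^ (2 * e) := by rw [← pow_mul, mul_comm]
    have h6 : 2 ^ (l.length + 1) * (c + 1) - 1 = 2 * e + 1 := by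
      have : 2 ^ (l.length + 1) * (c + 1) = 2 * (2 ^ l.length * (c + 1)) := by ring
      omega
    rw [h6, pow_succ]
    have : Nat.succ (Nat.pair a (encode l)) ≤ 2 ^ (2 * e) := by
      have := h3.trans_le h5
      omega
    have hpos : 0 < 2 ^ (2 * e) := by positivity
    show Nat.succ (Nat.pair a (encode l)) < _
    omega

theorem encode_pair_lt (c n : ℕ) (l l' : List ℕ) (hl : l.length = n) (hl' : l'.length = n)
    (h : ∀ a ∈ l, a < 2 ^ c) (h' : ∀ a ∈ l', a < 2 ^ c) :
    encode (l, l') < 2 ^ (2 ^ (n + 1) * (c + 1)) := by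
  have h1 := encode_list_lt c l h
  have h2 := encode_list_lt c l' h'
  rw [hl] at h1
  rw [hl'] at h2
  set e := 2 ^ n * (c + 1) - 1 with he
  have h3 : Nat.pair (encode l) (encode l') < (max (encode l) (encode l') + 1) ^ 2 :=
    Nat.pair_lt_max_add_one_sq _ _
  have h4 : max (encode l) (encode l') + 1 ≤ 2 ^ e := by
    rcases le_total (encode l) (encode l') with h | h
    · rw [max_eq_right h]; omega
    · rw [max_eq_left h]; omega
  have h5 : (max (encode l) (encode l') + 1) ^ 2 ≤ 2 ^ (2 * e) := by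
    calc (max (encode l) (encode l') + 1) ^ 2 ≤ (2 ^ e) ^ 2 := Nat.pow_le_pow_left h4 2
      _ = 2 ^ (2 * e) := by rw [← pow_mul, mul_comm]
  have h6 : 2 * e ≤ 2 ^ (n + 1) * (c + 1) := by
    have : 2 ^ (n + 1) * (c + 1) = 2 * (2 ^ n * (c + 1)) := by ring
    omega
  have h7 : (2 : ℕ) ^ (2 * e) ≤ 2 ^ (2 ^ (n + 1) * (c + 1)) := Nat.pow_le_pow_right (by norm_num) h6
  have h8 : encode (l, l') = Nat.pair (encode l) (encode l') := rfl
  rw [h8]
  omega

/-- the index of the block of a guess -/
def kI (i : ℕ) : ℕ := Nat.findGreatest (fun k => 8 ^ (k + 1) ≤ i) i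

theorem kI_eq {i k : ℕ} (h1 : 8 ^ (k + 1) ≤ i) (h2 : i < 8 ^ (k + 2)) : kI i = k := by
  unfold kI
  have hk : k ≤ i := by
    have : k + 1 < 8 ^ (k + 1) := Nat.lt_pow_self (by norm_num)
    omega
  apply le_antisymm
  · by_contra hlt
    have hlt := Nat.lt_of_not_le hlt
    have h3 := Nat.findGreatest_spec (P := fun k => 8 ^ (k + 1) ≤ i) hk h1
    have h4 : 8 ^ (k + 2) ≤ 8 ^ (Nat.findGreatest (fun k => 8 ^ (k + 1) ≤ i) i + 1) :=
      Nat.pow_le_pow_right (by norm_num) (by omega)
    omega
  · exact Nat.le_findGreatest hk h1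

/-- the index of the block of a slot -/
def kS (n : ℕ) : ℕ := Nat.findGreatest (fun k => 4 ^ k ≤ n) n

theorem kS_eq {n k : ℕ} (h1 : 4 ^ k ≤ n) (h2 : n < 4 ^ (k + 1)) : kS n = k := by
  unfold kS
  have hk : k ≤ n := by
    have : k < 4 ^ k := Nat.lt_pow_self (by norm_num)
    omega
  apply le_antisymm
  · by_contra hlt
    have hlt := Nat.lt_of_not_le hlt
    have h3 := Nat.findGreatest_spec (P := fun k => 4 ^ k ≤ n) hk h1
    have h4 : 4 ^ (k + 1) ≤ 4 ^ (Nat.findGreatest (fun k => 4 ^ k ≤ n) n) :=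
      Nat.pow_le_pow_right (by norm_num) (by omega)
    omega
  · exact Nat.le_findGreatest hk h1

theorem two_mul_add_two_le {u : ℕ} (hu : 3 ≤ u) : 2 * u + 2 ≤ 2 ^ u := by
  induction u, hu using Nat.le_induction with
  | base => norm_num
  | succ n hn ih => rw [pow_succ]; omega

theorem arith_bound {u : ℕ} (hu : 3 ≤ u) :
    2 ^ (4 ^ u + 1) * ((4 ^ u).factorial + 1) ≤ 2 ^ (8 ^ u) := by
  have h4 := two_mul_add_two_le hu
  have h8 : 8 ^ u = 2 ^ u * 4 ^ u := by rw [← mul_pow]; norm_num
  have hNN : (4 ^ u) ^ (4 ^ u) = 2 ^ (2 * u * 4 ^ u) := by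
    have : (4 : ℕ) ^ u = 2 ^ (2 * u) := by rw [pow_mul]; norm_num
    calc (4 ^ u) ^ (4 ^ u) = (2 ^ (2 * u)) ^ (4 ^ u) := by rw [this]
      _ = 2 ^ (2 * u * 4 ^ u) := by rw [← pow_mul]
  have h7 : 2 ≤ 4 ^ u := by
    calc 2 ≤ 4 ^ 1 := by norm_num
      _ ≤ 4 ^ u := Nat.pow_le_pow_right (by norm_num) (by omega)
  have h1 : (4 ^ u).factorial ≤ (4 ^ u) ^ (4 ^ u) := Nat.factorial_le_pow _
  rw [hNN] at h1
  generalize 4 ^ u = N at *
  have h3 : N.factorial + 1 ≤ 2 ^ (2 * u * N + 1) := by
    have : 1 ≤ 2 ^ (2 * u * N) := Nat.one_le_two_pow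
    rw [pow_succ]
    omega
  have h5 : N + 1 + (2 * u * N + 1) ≤ 8 ^ u := by
    rw [h8]
    have h6 : (2 * u + 2) * N ≤ 2 ^ u * N := Nat.mul_le_mul_right _ h4
    nlinarith
  calc 2 ^ (N + 1) * (N.factorial + 1) ≤ 2 ^ (N + 1) * 2 ^ (2 * u * N + 1) :=
        Nat.mul_le_mul_left _ h3
    _ = 2 ^ (N + 1 + (2 * u * N + 1)) := by rw [← pow_add]
    _ ≤ 2 ^ (8 ^ u) := Nat.pow_le_pow_right (by norm_num) h5

/-- the function to be guessed, coding `b` and `a` -/
def yfun (b a : ℕ → ℕ) (i : ℕ) : ℕ :=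
  if i < 512 then 0 else encode (pre b (4 ^ (kI i + 1)), pre a (4 ^ (kI i + 1)))

theorem yfun_eq (b a : ℕ → ℕ) {i k : ℕ} (hk : 2 ≤ k) (h1 : 8 ^ (k + 1) ≤ i) (h2 : i < 8 ^ (k + 2)) :
    yfun b a i = encode (pre b (4 ^ (k + 1)), pre a (4 ^ (k + 1))) := by
  have h512 : ¬ i < 512 := by
    have : 8 ^ (2 + 1) ≤ 8 ^ (k + 1) := Nat.pow_le_pow_right (by norm_num) (by omega)
    norm_num at this
    omega
  simp only [yfun, h512, if_false, kI_eq h1 h2]

theorem yfun_lt (b a : ℕ → ℕ) (hb : ∀ n, b n < 2 ^ n.factorial) (ha : ∀ n, a n < 2 ^ n.factorial)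
    (i : ℕ) : yfun b a i < 2 ^ (2 ^ i) := by
  by_cases hi : i < 512
  · simp [yfun, hi]
  · simp only [yfun, hi, if_false]
    have hk1 : 8 ^ (kI i + 1) ≤ i := by
      have := Nat.findGreatest_spec (P := fun k => 8 ^ (k + 1) ≤ i) (m := 2) (n := i) (by omega)
        (by norm_num; omega)
      exact this
    have hk2 : 2 ≤ kI i := Nat.le_findGreatest (P := fun k => 8 ^ (k + 1) ≤ i) (by omega)
        (by norm_num; omega)
    set u := kI i + 1 with hu
    have hbd : ∀ (f : ℕ → ℕ), (∀ n, f n < 2 ^ n.factorial) →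
        ∀ v ∈ pre f (4 ^ u), v < 2 ^ (4 ^ u).factorial := by
      intro f hf v hv
      simp only [pre, List.mem_map, List.mem_range] at hv
      obtain ⟨m, hm, rfl⟩ := hv
      exact (hf m).trans_le (Nat.pow_le_pow_right (by norm_num) (Nat.factorial_le hm.le))
    have h1 := encode_pair_lt ((4 ^ u).factorial) (4 ^ u) (pre b (4 ^ u)) (pre a (4 ^ u))
      (by simp [pre]) (by simp [pre]) (hbd b hb) (hbd a ha)
    refine h1.trans_le (Nat.pow_le_pow_right (by norm_num) ?_)
    exact (arith_bound (by omega)).trans (Nat.pow_le_pow_right (by norm_num) hk1)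

/-! ### The two functionals -/

/-- entry `t + i` of the list of guesses -/
def ent (L : List ℕ) (t i : ℕ) : ℕ := L.getD (t + i) 0

/-- `i` is an index of rank exactly `M` within its class of first components -/
def heavy (L : List ℕ) (t M i : ℕ) : Prop :=
  Nat.count (fun i' => dec1 (ent L t i') = dec1 (ent L t i)) i = M

instance (L : List ℕ) (t M : ℕ) : DecidablePred (heavy L t M) := fun i => by
  unfold heavy; infer_instance

/-- the first functional: serves the frequently guessed first components -/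
def G1 (p : ℕ × List ℕ) : ℕ :=
  let n := p.1
  let L := p.2
  let k := kS n
  let t := 8 ^ (k + 1)
  (dec1 (ent L t (sel (heavy L t (4 ^ k)) (7 * t) (n - 4 ^ k)))).getD n 0

/-- the second functional: serves the guesses whose first component is `β` -/
def G2 (q : List ℕ × (ℕ × List ℕ)) : ℕ :=
  let β := q.1
  let n := q.2.1
  let L := q.2.2
  let k := kS n
  let t := 8 ^ (k + 1)
  (dec2 (ent L t (sel (fun i => dec1 (ent L t i) = β) (7 * t) (n - 4 ^ k)))).getD n 0

/-- the length of the initial segment used at `n` -/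
def useLen (n : ℕ) : ℕ := 8 ^ (kS n + 2)

theorem pow_block (k : ℕ) : 8 ^ (k + 2) = 8 ^ (k + 1) + 7 * 8 ^ (k + 1) := by
  rw [pow_succ 8 (k + 1)]; ring

theorem ent_pre (x : ℕ → ℕ) {k i : ℕ} (hi : i < 7 * 8 ^ (k + 1)) :
    ent (pre x (8 ^ (k + 2))) (8 ^ (k + 1)) i = x (8 ^ (k + 1) + i) := by
  unfold ent
  apply pre_getD
  rw [pow_block]
  omega

/-- The combinatorial core: for large `k`, if a guess in block `k` is right, then one of the two
functionals is right at a slot in block `k`. -/
theorem core (x b a : ℕ → ℕ) {k i : ℕ} (hk : 6 ≤ k) (h1 : 8 ^ (k + 1) ≤ i)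
    (h2 : i < 8 ^ (k + 2)) (hx : x i = yfun b a i) :
    ∃ n, 4 ^ k ≤ n ∧ n < 4 ^ (k + 1) ∧
      (G1 (n, pre x (useLen n)) = b n ∨
        G2 (pre b (4 ^ (kS n + 1)), n, pre x (useLen n)) = a n) := by
  set t := 8 ^ (k + 1) with ht
  set L := pre x (8 ^ (k + 2)) with hL
  set β := pre b (4 ^ (k + 1)) with hβ
  obtain ⟨d, rfl⟩ : ∃ d, i = t + d := ⟨i - t, by omega⟩
  have hd : d < 7 * t := by rw [pow_block] at h2; omega
  have hy := yfun_eq b a (by omega : 2 ≤ k) h1 h2
  have hentd : ent L t d = encode (pre b (4 ^ (k + 1)), pre a (4 ^ (k + 1))) := by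
    rw [hL, ht, ent_pre x hd, ← ht, hx, hy]
  have hd1 : dec1 (ent L t d) = β := by rw [hentd, dec1_encode]
  have hd2 : dec2 (ent L t d) = pre a (4 ^ (k + 1)) := by rw [hentd, dec2_encode]
  have h4 : 4 ^ (k + 1) = 4 * 4 ^ k := by rw [pow_succ]; ring
  -- arithmetic: the block has at most `(4^k)^2` guesses
  have hblock : 7 * t ≤ 4 ^ k * 4 ^ k := by
    have e1 : 4 ^ k * 4 ^ k = 8 ^ k * 2 ^ k := by
      rw [← mul_pow, ← mul_pow]; norm_num
    have e2 : 64 ≤ 2 ^ k := by
      calc 64 = 2 ^ 6 := by norm_num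
        _ ≤ 2 ^ k := Nat.pow_le_pow_right (by norm_num) hk
    rw [e1, ht, pow_succ]
    nlinarith [Nat.one_le_pow k 8 (by norm_num)]
  have hpos : 0 < 4 ^ k := by positivity
  by_cases hdense : 4 ^ k < Nat.count (fun i' => dec1 (ent L t i') = β) (7 * t)
  · -- the first component is served by `G1`
    obtain ⟨e, he, hpe, hce⟩ := exists_rank _ _ _ hdense
    have hheavy : heavy L t (4 ^ k) e := by
      unfold heavy
      rw [hpe]; exact hce
    set j := Nat.count (heavy L t (4 ^ k)) e with hj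
    have hjlt : j < 4 ^ k := by
      have h5 := count_rank_mul_le (fun i => dec1 (ent L t i)) (4 ^ k) (7 * t)
      have h6 : Nat.count (heavy L t (4 ^ k)) (7 * t) * (4 ^ k + 1) ≤ 7 * t := h5
      have h7 : j ≤ Nat.count (heavy L t (4 ^ k)) (7 * t) := Nat.count_monotone _ he.le
      by_contra hcon
      have hcon := Nat.le_of_not_lt hcon
      have h8 : 4 ^ k * (4 ^ k + 1) ≤ 4 ^ k * 4 ^ k :=
        (Nat.mul_le_mul_right _ (hcon.trans h7)).trans (h6.trans hblock)
      nlinarith
    refine ⟨4 ^ k + j, by omega, by omega, Or.inl ?_⟩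
    have hkS : kS (4 ^ k + j) = k := kS_eq (by omega) (by omega)
    have hsel : sel (heavy L t (4 ^ k)) (7 * t) j = e := sel_eq _ he.le hheavy
    have : G1 (4 ^ k + j, pre x (useLen (4 ^ k + j))) =
        (dec1 (ent L t (sel (heavy L t (4 ^ k)) (7 * t) j))).getD (4 ^ k + j) 0 := by
      simp only [G1, useLen, hkS]
      rw [← ht, ← hL, Nat.add_sub_cancel_left]
    rw [this, hsel, hpe, hβ]
    exact pre_getD b (by omega)
  · -- the second component is served by `G2`
    set j := Nat.count (fun i' => dec1 (ent L t i') = β) d with hj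
    have hjlt : j < 4 ^ k := by
      have h5 : Nat.count (fun i' => dec1 (ent L t i') = β) (d + 1) ≤
          Nat.count (fun i' => dec1 (ent L t i') = β) (7 * t) := Nat.count_monotone _ (by omega)
      rw [Nat.count_succ] at h5
      simp only [hd1, if_true] at h5
      omega
    refine ⟨4 ^ k + j, by omega, by omega, Or.inr ?_⟩
    have hkS : kS (4 ^ k + j) = k := kS_eq (by omega) (by omega)
    have hsel : sel (fun i => dec1 (ent L t i) = β) (7 * t) j = d := sel_eq _ hd.le hd1
    have : G2 (pre b (4 ^ (kS (4 ^ k + j) + 1)), 4 ^ k + j, pre x (useLen (4 ^ k + j))) =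
        (dec2 (ent L t (sel (fun i => dec1 (ent L t i) = β) (7 * t) j))).getD (4 ^ k + j) 0 := by
      simp only [G2, useLen, hkS]
      rw [← ht, ← hL, Nat.add_sub_cancel_left]
    rw [this, hsel, hd2]
    exact pre_getD a (by omega)

end Pool.Agent.MP_65fbb9_lc
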