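import Mathlib
import Pool.Agent.Lib.MP_65fbb9_lc.Defs
import Pool.Agent.Lib.MP_65fbb9_lc.Oracle
import Pool.Agent.Lib.MP_65fbb9_lc.Serve

/-!
Computability of the two functionals and the inclusion `D(≠*, 2^(2^n)) ⊆ D(≠*, 2^(n!))`.
-/

namespace Pool.Agent.MP_65fbb9_lc

open Encodable

section prim

variable {α : Type*} [Primcodable α]

theorem primrec_count {p : α → ℕ → Prop} [∀ a, DecidablePred (p a)] (hp : PrimrecRel p)
    {f : α → ℕ} (hf : Primrec f) : Primrec (fun a => Nat.count (p a) (f a)) := by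
  have h : Primrec₂ (fun (a : α) (q : ℕ × ℕ) => q.2 + if p a q.1 then 1 else 0) := by
    refine Primrec.nat_add.comp (Primrec.snd.comp Primrec.snd) ?_
    refine Primrec.ite ?_ (Primrec.const 1) (Primrec.const 0)
    exact PrimrecRel.comp hp Primrec.fst (Primrec.fst.comp Primrec.snd)
  refine (Primrec.nat_rec' hf (Primrec.const 0) h).of_eq (fun a => ?_)
  induction f a with
  | zero => simp
  | succ n ih => simp only [ih, Nat.count_succ]

theorem primrec_pow (c : ℕ) {f : α → ℕ} (hf : Primrec f) : Primrec (fun a => c ^ f a) := by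
  have h : Primrec₂ (fun (_ : α) (q : ℕ × ℕ) => q.2 * c) :=
    Primrec.nat_mul.comp (Primrec.snd.comp Primrec.snd) (Primrec.const c)
  refine (Primrec.nat_rec' hf (Primrec.const 1) h).of_eq (fun a => ?_)
  induction f a with
  | zero => simp
  | succ n ih => simp only [ih, pow_succ]

theorem primrec_ent {L : α → List ℕ} {t i : α → ℕ} (hL : Primrec L) (ht : Primrec t)
    (hi : Primrec i) : Primrec (fun a => ent (L a) (t a) (i a)) :=
  (Primrec.list_getD 0).comp hL (Primrec.nat_add.comp ht hi)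

theorem primrec_dec1 {v : α → ℕ} (hv : Primrec v) : Primrec (fun a => dec1 (v a)) :=
  Primrec.fst.comp (Primrec.option_getD.comp (Primrec.decode.comp hv) (Primrec.const ([], [])))

theorem primrec_dec2 {v : α → ℕ} (hv : Primrec v) : Primrec (fun a => dec2 (v a)) :=
  Primrec.snd.comp (Primrec.option_getD.comp (Primrec.decode.comp hv) (Primrec.const ([], [])))

theorem primrec_sel {p : α → ℕ → Prop} [∀ a, DecidablePred (p a)] (hp : PrimrecRel p)
    {n j : α → ℕ} (hn : Primrec n) (hj : Primrec j) :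
    Primrec (fun a => sel (p a) (n a) (j a)) := by
  unfold sel
  refine Primrec.nat_findGreatest hn ?_
  refine PrimrecPred.and hp ?_
  have hp' : PrimrecRel (fun (q : α × ℕ) (i : ℕ) => p q.1 i) :=
    PrimrecRel.comp hp (Primrec.fst.comp Primrec.fst) Primrec.snd
  refine PrimrecRel.comp Primrec.eq (primrec_count hp' Primrec.snd) (hj.comp Primrec.fst)

theorem primrec_kS {n : α → ℕ} (hn : Primrec n) : Primrec (fun a => kS (n a)) := by
  unfold kS
  refine Primrec.nat_findGreatest hn ?_
  exact PrimrecRel.comp Primrec.nat_le (primrec_pow 4 Primrec.snd) (hn.comp Primrec.fst)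

theorem primrec_kI {n : α → ℕ} (hn : Primrec n) : Primrec (fun a => kI (n a)) := by
  unfold kI
  refine Primrec.nat_findGreatest hn ?_
  exact PrimrecRel.comp Primrec.nat_le (primrec_pow 8 (Primrec.succ.comp Primrec.snd))
    (hn.comp Primrec.fst)

end prim

theorem primrec_G1 : Primrec G1 := by
  have hk : Primrec (fun p : ℕ × List ℕ => kS p.1) := primrec_kS Primrec.fst
  have ht : Primrec (fun p : ℕ × List ℕ => 8 ^ (kS p.1 + 1)) :=
    primrec_pow 8 (Primrec.succ.comp hk)
  have h4 : Primrec (fun p : ℕ × List ℕ => 4 ^ (kS p.1)) := primrec_pow 4 hk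
  have h7 : Primrec (fun p : ℕ × List ℕ => 7 * 8 ^ (kS p.1 + 1)) :=
    Primrec.nat_mul.comp (Primrec.const 7) ht
  have hj : Primrec (fun p : ℕ × List ℕ => p.1 - 4 ^ (kS p.1)) :=
    Primrec.nat_sub.comp Primrec.fst h4
  have hheavy : PrimrecRel (fun (p : ℕ × List ℕ) (i : ℕ) =>
      heavy p.2 (8 ^ (kS p.1 + 1)) (4 ^ (kS p.1)) i) := by
    unfold heavy
    refine PrimrecRel.comp Primrec.eq ?_ (h4.comp Primrec.fst)
    refine primrec_count (p := fun (q : (ℕ × List ℕ) × ℕ) (i' : ℕ) =>
      dec1 (ent q.1.2 (8 ^ (kS q.1.1 + 1)) i') = dec1 (ent q.1.2 (8 ^ (kS q.1.1 + 1)) q.2)) ?_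
      Primrec.snd
    refine PrimrecRel.comp Primrec.eq ?_ ?_
    · exact primrec_dec1 (primrec_ent
        (Primrec.snd.comp (Primrec.fst.comp Primrec.fst))
        (ht.comp (Primrec.fst.comp Primrec.fst)) Primrec.snd)
    · exact primrec_dec1 (primrec_ent
        (Primrec.snd.comp (Primrec.fst.comp Primrec.fst))
        (ht.comp (Primrec.fst.comp Primrec.fst)) (Primrec.snd.comp Primrec.fst))
  have hsel := primrec_sel hheavy h7 hj
  unfold G1
  exact (Primrec.list_getD 0).comp (primrec_dec1 (primrec_ent Primrec.snd ht hsel)) Primrec.fst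

theorem primrec_G2 : Primrec G2 := by
  have hn : Primrec (fun q : List ℕ × (ℕ × List ℕ) => q.2.1) := Primrec.fst.comp Primrec.snd
  have hL : Primrec (fun q : List ℕ × (ℕ × List ℕ) => q.2.2) := Primrec.snd.comp Primrec.snd
  have hk : Primrec (fun q : List ℕ × (ℕ × List ℕ) => kS q.2.1) := primrec_kS hn
  have ht : Primrec (fun q : List ℕ × (ℕ × List ℕ) => 8 ^ (kS q.2.1 + 1)) :=
    primrec_pow 8 (Primrec.succ.comp hk)
  have h4 : Primrec (fun q : List ℕ × (ℕ × List ℕ) => 4 ^ (kS q.2.1)) := primrec_pow 4 hk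
  have h7 : Primrec (fun q : List ℕ × (ℕ × List ℕ) => 7 * 8 ^ (kS q.2.1 + 1)) :=
    Primrec.nat_mul.comp (Primrec.const 7) ht
  have hj : Primrec (fun q : List ℕ × (ℕ × List ℕ) => q.2.1 - 4 ^ (kS q.2.1)) :=
    Primrec.nat_sub.comp hn h4
  have hrel : PrimrecRel (fun (q : List ℕ × (ℕ × List ℕ)) (i : ℕ) =>
      dec1 (ent q.2.2 (8 ^ (kS q.2.1 + 1)) i) = q.1) := by
    refine PrimrecRel.comp Primrec.eq ?_ (Primrec.fst.comp Primrec.fst)
    exact primrec_dec1 (primrec_ent (hL.comp Primrec.fst) (ht.comp Primrec.fst) Primrec.snd)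
  have hsel := primrec_sel hrel h7 hj
  unfold G2
  exact (Primrec.list_getD 0).comp (primrec_dec2 (primrec_ent hL ht hsel)) hn

theorem computable_pre {α : Type*} [Primcodable α] {b : ℕ → ℕ} (hb : Computable b) {f : α → ℕ}
    (hf : Computable f) : Computable (fun a => pre b (f a)) := by
  have h : Computable₂ (fun (_ : α) (q : ℕ × List ℕ) => q.2 ++ [b q.1]) := by
    refine Computable.list_concat.comp (Computable.snd.comp Computable.snd) ?_
    exact hb.comp (Computable.fst.comp Computable.snd)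
  refine (Computable.nat_rec hf (Computable.const []) h).of_eq (fun a => ?_)
  induction f a with
  | zero => simp [pre]
  | succ n ih => simp only [ih, pre, List.range_succ, List.map_append, List.map_cons, List.map_nil]

theorem computable_yfun {b a : ℕ → ℕ} (hb : Computable b) (ha : Computable a) :
    Computable (yfun b a) := by
  have h1 : Computable (fun i : ℕ => 4 ^ (kI i + 1)) :=
    (primrec_pow 4 (Primrec.succ.comp (primrec_kI Primrec.id))).to_comp
  have h2 : Computable (fun i : ℕ => encode (pre b (4 ^ (kI i + 1)), pre a (4 ^ (kI i + 1)))) :=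
    Computable.encode.comp ((computable_pre hb h1).pair (computable_pre ha h1))
  have h3 : Computable (fun i : ℕ => decide (i < 512)) :=
    (PrimrecRel.comp Primrec.nat_lt Primrec.id (Primrec.const 512)).decide.to_comp
  refine (Computable.cond h3 (Computable.const 0) h2).of_eq (fun i => ?_)
  by_cases h : i < 512 <;> simp [yfun, h]

theorem computable_useLen : Computable useLen :=
  (primrec_pow 8 (Primrec.succ.comp (Primrec.succ.comp (primrec_kS Primrec.id)))).to_comp

/-- If `{n | x n = y n}` is infinite then it has elements in arbitrarily late blocks. -/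
theorem exists_block_of_infinite {S : Set ℕ} (hS : S.Infinite) (K : ℕ) :
    ∃ i ∈ S, ∃ k, K ≤ k ∧ 8 ^ (k + 1) ≤ i ∧ i < 8 ^ (k + 2) := by
  obtain ⟨i, hi, hgt⟩ := hS.exists_gt (8 ^ (K + 1))
  have hi0 : i ≠ 0 := by rintro rfl; exact absurd hgt (Nat.not_lt_zero _)
  refine ⟨i, hi, Nat.log 8 i - 1, ?_, ?_, ?_⟩
  · have : K + 1 ≤ Nat.log 8 i := Nat.le_log_of_pow_le (by norm_num) hgt.le
    omega
  · have h1 : K + 1 ≤ Nat.log 8 i := Nat.le_log_of_pow_le (by norm_num) hgt.le
    have h2 : Nat.log 8 i - 1 + 1 = Nat.log 8 i := by omega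
    rw [h2]
    exact Nat.pow_log_le_self 8 hi0
  · have h1 : K + 1 ≤ Nat.log 8 i := Nat.le_log_of_pow_le (by norm_num) hgt.le
    have h2 : Nat.log 8 i - 1 + 2 = Nat.log 8 i + 1 := by omega
    rw [h2]
    exact Nat.lt_pow_succ_log_self (by norm_num) i

/-- Main inclusion: `D(≠*, 2^(2^n)) ⊆ D(≠*, 2^(n!))`. -/
theorem DNeq_pow_subset_factorial :
    DNeq (fun n => 2 ^ (2 ^ n)) ⊆ DNeq (fun n => 2 ^ n.factorial) := by
  rintro A ⟨x, hAx, hx⟩
  set z1 : ℕ → ℕ := fun n => G1 (n, pre x (useLen n)) with hz1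
  have hAz1 : Computes A z1 :=
    Computes.of_prefix hAx G1 primrec_G1.to_comp useLen computable_useLen
  by_cases h1 : ∀ y : ℕ → ℕ, Computable y → (∀ n, y n < 2 ^ n.factorial) →
      {n | z1 n = y n}.Infinite
  · exact ⟨z1, hAz1, h1⟩
  · simp only [not_forall] at h1
    obtain ⟨b, hb, hblt, hfin⟩ := h1
    have hfin' : {n | z1 n = b n}.Finite := Set.not_infinite.1 hfin
    set z2 : ℕ → ℕ := fun n => G2 (pre b (4 ^ (kS n + 1)), n, pre x (useLen n)) with hz2
    have hAz2 : Computes A z2 := by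
      have hF : Computable (fun q : ℕ × List ℕ => G2 (pre b (4 ^ (kS q.1 + 1)), q.1, q.2)) := by
        refine primrec_G2.to_comp.comp ?_
        refine Computable.pair ?_ (Computable.pair Computable.fst Computable.snd)
        exact computable_pre hb
          (primrec_pow 4 (Primrec.succ.comp (primrec_kS Primrec.fst))).to_comp
      exact Computes.of_prefix hAx _ hF useLen computable_useLen
    refine ⟨z2, hAz2, ?_⟩
    intro a ha halt
    have hinf := hx (yfun b a) (computable_yfun hb ha) (yfun_lt b a hblt halt)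
    obtain ⟨m, hm⟩ := hfin'.bddAbove
    refine Set.infinite_of_not_bddAbove ?_
    rintro ⟨m', hm'⟩
    obtain ⟨i, hi, k, hk, hk1, hk2⟩ := exists_block_of_infinite hinf (max 6 (max (m + 1) (m' + 1)))
    obtain ⟨n, hn1, hn2, hn3⟩ := core x b a (by omega : 6 ≤ k) hk1 hk2 hi
    have hkn : k < n := lt_of_lt_of_le (Nat.lt_pow_self (by norm_num)) hn1
    rcases hn3 with h | h
    · have : n ≤ m := hm h
      omega
    · have : n ≤ m' := hm' h
      omega

/-- The reverse inclusion: `D(≠*, 2^(n!)) ⊆ D(≠*, 2^(2^n))`. -/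
theorem DNeq_factorial_subset_pow :
    DNeq (fun n => 2 ^ n.factorial) ⊆ DNeq (fun n => 2 ^ (2 ^ n)) := by
  rintro A ⟨x, hAx, hx⟩
  refine ⟨x, hAx, ?_⟩
  intro y hy hylt
  set y' : ℕ → ℕ := fun n => if n < 4 then 0 else y n with hy'
  have hcomp : Computable y' := by
    have h3 : Computable (fun i : ℕ => decide (i < 4)) :=
      (PrimrecRel.comp Primrec.nat_lt Primrec.id (Primrec.const 4)).decide.to_comp
    refine (Computable.cond h3 (Computable.const 0) hy).of_eq (fun i => ?_)
    by_cases h : i < 4 <;> simp [y', h]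
  have hfac : ∀ n, 4 ≤ n → 2 ^ n ≤ n.factorial := by
    intro n hn
    induction n, hn using Nat.le_induction with
    | base => decide
    | succ n hn ih =>
      rw [pow_succ, Nat.factorial_succ]
      nlinarith
  have hlt : ∀ n, y' n < 2 ^ n.factorial := by
    intro n
    by_cases h : n < 4
    · simp [y', h]
    · simp only [y', h, if_false]
      exact (hylt n).trans_le (Nat.pow_le_pow_right (by norm_num) (hfac n (by omega)))
  have hinf := hx y' hcomp hlt
  refine Set.infinite_of_not_bddAbove ?_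
  rintro ⟨m, hm⟩
  obtain ⟨n, hn, hgt⟩ := hinf.exists_gt (max m 4)
  have hn4 : ¬ n < 4 := by omega
  have : x n = y n := by
    have : x n = y' n := hn
    simpa [y', hn4] using this
  have := hm this
  omega

end Pool.Agent.MP_65fbb9_lc
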