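import Mathlib
import Pool.Agent.Lib.MP_65fbb9_lc.Defs
import Pool.Agent.Lib.MP_65fbb9_lc.Oracle
import Pool.Agent.Lib.MP_65fbb9_lc.Serve
import Pool.Agent.Lib.MP_65fbb9_lc.ServeComp

/-!
Bits of natural numbers, and computability helpers.
-/

namespace Pool.Agent.MP_65fbb9_lc

open Encodable

/-- the `j`-th binary digit of `v` -/
def bit (v j : ℕ) : ℕ := v / 2 ^ j % 2

/-- the number with binary digits `f 0, ..., f (N-1)` (only the value `0` counts as zero bit). -/
def bsum (f : ℕ → ℕ) (N : ℕ) : ℕ :=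
  N.rec 0 (fun j acc => acc + if f j = 0 then 0 else 2 ^ j)

theorem bsum_zero (f : ℕ → ℕ) : bsum f 0 = 0 := rfl

theorem bsum_succ (f : ℕ → ℕ) (N : ℕ) :
    bsum f (N + 1) = bsum f N + if f N = 0 then 0 else 2 ^ N := rfl

theorem bsum_lt (f : ℕ → ℕ) (N : ℕ) : bsum f N < 2 ^ N := by
  induction N with
  | zero => simp [bsum_zero]
  | succ N ih =>
    rw [bsum_succ, pow_succ]
    split_ifs <;> omega

theorem bit_add_pow_of_lt {v j N : ℕ} (h : j < N) : bit (2 ^ N + v) j = bit v j := by
  unfold bit
  obtain ⟨d, rfl⟩ : ∃ d, N = j + (d + 1) := ⟨N - j - 1, by omega⟩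
  have : 2 ^ (j + (d + 1)) + v = v + 2 ^ j * (2 * 2 ^ d) := by
    rw [pow_add, pow_succ]; ring
  rw [this, Nat.add_mul_div_left _ _ (by positivity)]
  omega

theorem bit_add_pow_self {v N : ℕ} (h : v < 2 ^ N) : bit (2 ^ N + v) N = 1 := by
  unfold bit
  have : (2 ^ N + v) / 2 ^ N = 1 := by
    rw [Nat.add_div_left _ (by positivity), Nat.div_eq_of_lt h]
  rw [this]

theorem bit_of_lt {v N : ℕ} (h : v < 2 ^ N) : bit v N = 0 := by
  unfold bit
  rw [Nat.div_eq_of_lt h]

theorem bit_bsum (f : ℕ → ℕ) {N j : ℕ} (hj : j < N) :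
    bit (bsum f N) j = if f j = 0 then 0 else 1 := by
  induction N with
  | zero => omega
  | succ N ih =>
    rw [bsum_succ]
    rcases Nat.lt_succ_iff_lt_or_eq.1 hj with h | h
    · split_ifs with h1 h2 h2
      · rw [Nat.add_zero, ih h]; simp [h2]
      · rw [Nat.add_zero, ih h]; simp [h2]
      · rw [Nat.add_comm, bit_add_pow_of_lt h, ih h]; simp [h2]
      · rw [Nat.add_comm, bit_add_pow_of_lt h, ih h]; simp [h2]
    · subst h
      split_ifs with h1
      · rw [Nat.add_zero, bit_of_lt (bsum_lt f j)]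
      · rw [Nat.add_comm, bit_add_pow_self (bsum_lt f j)]

theorem bsum_congr {f g : ℕ → ℕ} {N : ℕ} (h : ∀ j < N, (f j = 0 ↔ g j = 0)) :
    bsum f N = bsum g N := by
  induction N with
  | zero => rfl
  | succ N ih =>
    rw [bsum_succ, bsum_succ, ih (fun j hj => h j (by omega))]
    have := h N (by omega)
    by_cases h1 : f N = 0
    · simp [h1, this.1 h1]
    · have h2 : ¬ g N = 0 := fun h2 => h1 (this.2 h2)
      simp [h1, h2]

section comp

variable {α : Type*} [Primcodable α]

theorem primrec_bit {v j : α → ℕ} (hv : Primrec v) (hj : Primrec j) :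
    Primrec (fun a => bit (v a) (j a)) := by
  unfold bit
  exact Primrec.nat_mod.comp (Primrec.nat_div.comp hv (primrec_pow 2 hj)) (Primrec.const 2)

theorem computable_bsum {f : α → ℕ → ℕ} (hf : Computable₂ f) {N : α → ℕ} (hN : Computable N) :
    Computable (fun a => bsum (f a) (N a)) := by
  have h0 : Computable (fun q : α × ℕ × ℕ => f q.1 q.2.1) :=
    hf.comp Computable.fst (Computable.fst.comp Computable.snd)
  have h1 : Computable (fun q : α × ℕ × ℕ => decide (f q.1 q.2.1 = 0)) := by
    have : Computable (fun n : ℕ => decide (n = 0)) :=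
      (PrimrecRel.comp Primrec.eq Primrec.id (Primrec.const 0)).decide.to_comp
    exact this.comp h0
  have h2 : Computable (fun q : α × ℕ × ℕ => if f q.1 q.2.1 = 0 then 0 else 2 ^ q.2.1) := by
    refine (Computable.cond h1 (Computable.const 0)
      (primrec_pow 2 (Primrec.fst.comp Primrec.snd)).to_comp).of_eq (fun q => ?_)
    by_cases h : f q.1 q.2.1 = 0 <;> simp [h]
  have h : Computable₂ (fun (a : α) (q : ℕ × ℕ) => q.2 + if f a q.1 = 0 then 0 else 2 ^ q.1) :=
    Primrec.nat_add.to_comp.comp (Computable.snd.comp Computable.snd) h2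
  refine (Computable.nat_rec hN (Computable.const 0) h).of_eq (fun a => ?_)
  rfl

theorem computable_ite_eq_zero {f : α → ℕ} (hf : Computable f) {g h : α → ℕ} (hg : Computable g)
    (hh : Computable h) : Computable (fun a => if f a = 0 then g a else h a) := by
  have h1 : Computable (fun a => decide (f a = 0)) := by
    have : Computable (fun n : ℕ => decide (n = 0)) :=
      (PrimrecRel.comp Primrec.eq Primrec.id (Primrec.const 0)).decide.to_comp
    exact this.comp hf
  refine (Computable.cond h1 hg hh).of_eq (fun q => ?_)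
  by_cases h : f q = 0 <;> simp [h]

end comp

/-- A computable set has a computable characteristic function. -/
theorem exists_computable_char {S : Set ℕ} (hS : ComputablePred (fun n => n ∈ S)) :
    ∃ s : ℕ → ℕ, Computable s ∧ ∀ n, (s n ≠ 0 ↔ n ∈ S) := by
  obtain ⟨hd, hc⟩ := hS
  refine ⟨fun n => if decide (n ∈ S) = true then 1 else 0, ?_, ?_⟩
  · refine (Computable.cond hc (Computable.const 1) (Computable.const 0)).of_eq (fun n => ?_)
    by_cases h : n ∈ S <;> simp [h]
  · intro n
    by_cases h : n ∈ S <;> simp [h]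

theorem chi_ne_zero (X : Set ℕ) (n : ℕ) : chi X n ≠ 0 ↔ n ∈ X := by
  classical
  unfold chi
  by_cases h : n ∈ X <;> simp [h]

theorem computablePred_of_char {s : ℕ → ℕ} (hs : Computable s) :
    ComputablePred (fun n => n ∈ {n | s n ≠ 0}) := by
  refine ComputablePred.computable_iff.2 ⟨fun n => !decide (s n = 0), ?_, ?_⟩
  · have : Computable (fun n : ℕ => !decide (n = 0)) :=
      (Primrec.not.comp (PrimrecRel.comp Primrec.eq Primrec.id (Primrec.const 0)).decide).to_comp
    exact this.comp hs
  · funext n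
    by_cases h : s n = 0 <;> simp [h]

end Pool.Agent.MP_65fbb9_lc
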