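import Mathlib
import Pool.Agent.Lib.MP_65fbb9_lc.Bits

/-!
`D(≠*, 2^(n!)) ⊆ D(~_0)`.
-/

namespace Pool.Agent.MP_65fbb9_lc

open Encodable

/-- start of the `n`-th block (of length `n!`) -/
def st (n : ℕ) : ℕ := n.rec 0 (fun j acc => acc + j.factorial)

theorem st_zero : st 0 = 0 := rfl

theorem st_succ (n : ℕ) : st (n + 1) = st n + n.factorial := rfl

theorem st_strictMono : StrictMono st :=
  strictMono_nat_of_lt_succ (fun n => by rw [st_succ]; have := n.factorial_pos; omega)

theorem le_st (n : ℕ) : n ≤ st n := st_strictMono.le_apply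

theorem st_mul_le (n : ℕ) : n * st n ≤ 2 * n.factorial := by
  have key : ∀ n, st (n + 1) ≤ 2 * n.factorial := by
    intro n
    induction n with
    | zero => simp [st_succ, st_zero]
    | succ n ih =>
      rw [st_succ, Nat.factorial_succ]
      rcases Nat.eq_zero_or_pos n with h | h
      · subst h; simp [st_succ, st_zero]
      · have := n.factorial_pos
        nlinarith
  cases n with
  | zero => simp
  | succ n =>
    rw [Nat.factorial_succ]
    have := key n
    nlinarith

/-- the block containing `m` -/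
def bN (m : ℕ) : ℕ := Nat.findGreatest (fun n => st n ≤ m) m

theorem bN_eq {n m : ℕ} (h1 : st n ≤ m) (h2 : m < st (n + 1)) : bN m = n := by
  unfold bN
  have hk : n ≤ m := (le_st n).trans h1
  apply le_antisymm
  · by_contra hlt
    have hlt := Nat.lt_of_not_le hlt
    have h3 := Nat.findGreatest_spec (P := fun n => st n ≤ m) hk h1
    have h4 := st_strictMono.monotone (show n + 1 ≤ Nat.findGreatest (fun n => st n ≤ m) m by omega)
    omega
  · exact Nat.le_findGreatest hk h1

section comp

variable {α : Type*} [Primcodable α]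

theorem primrec_factorial {f : α → ℕ} (hf : Primrec f) : Primrec (fun a => (f a).factorial) := by
  have h : Primrec₂ (fun (_ : α) (q : ℕ × ℕ) => (q.1 + 1) * q.2) :=
    Primrec.nat_mul.comp (Primrec.succ.comp (Primrec.fst.comp Primrec.snd))
      (Primrec.snd.comp Primrec.snd)
  refine (Primrec.nat_rec' hf (Primrec.const 1) h).of_eq (fun a => ?_)
  induction f a with
  | zero => simp
  | succ n ih => simp only [ih, Nat.factorial_succ]

theorem primrec_st {f : α → ℕ} (hf : Primrec f) : Primrec (fun a => st (f a)) := by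
  have h : Primrec₂ (fun (_ : α) (q : ℕ × ℕ) => q.2 + (q.1).factorial) :=
    Primrec.nat_add.comp (Primrec.snd.comp Primrec.snd)
      (primrec_factorial (Primrec.fst.comp Primrec.snd))
  refine (Primrec.nat_rec' hf (Primrec.const 0) h).of_eq (fun a => ?_)
  rfl

theorem primrec_bN {f : α → ℕ} (hf : Primrec f) : Primrec (fun a => bN (f a)) := by
  unfold bN
  refine Primrec.nat_findGreatest hf ?_
  exact PrimrecRel.comp Primrec.nat_le (primrec_st Primrec.snd) (hf.comp Primrec.fst)

end comp

/-- the functional producing the set: the complement of the bits of the guesses -/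
def H1 (p : ℕ × List ℕ) : ℕ :=
  1 - bit (p.2.getD (bN p.1) 0) (p.1 - st (bN p.1))

theorem primrec_H1 : Primrec H1 := by
  have h1 : Primrec (fun p : ℕ × List ℕ => bN p.1) := primrec_bN Primrec.fst
  unfold H1
  exact Primrec.nat_sub.comp (Primrec.const 1) (primrec_bit
    ((Primrec.list_getD 0).comp Primrec.snd h1)
    (Primrec.nat_sub.comp Primrec.fst (primrec_st h1)))

theorem ratio_nonneg (Z : Set ℕ) (n : ℕ) : 0 ≤ ((Z ∩ Set.Iio n).ncard : ℝ) / (n : ℝ) := by
  positivity

theorem ratio_bdd (Z : Set ℕ) : Filter.IsBoundedUnder (· ≥ ·) Filter.atTop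
    (fun n : ℕ => ((Z ∩ Set.Iio n).ncard : ℝ) / (n : ℝ)) :=
  Filter.isBoundedUnder_of ⟨0, fun n => ratio_nonneg Z n⟩

theorem lowerDensity_le_zero {Z : Set ℕ}
    (h : ∀ ε : ℝ, 0 < ε → ∃ᶠ n : ℕ in Filter.atTop, ((Z ∩ Set.Iio n).ncard : ℝ) / (n : ℝ) ≤ ε) :
    lowerDensity Z ≤ 0 := by
  refine le_of_forall_pos_le_add (fun ε hε => ?_)
  rw [zero_add]
  exact Filter.liminf_le_of_frequently_le (h ε hε) (ratio_bdd Z)

/-- `D(≠*, 2^(n!)) ⊆ D(~_0)`. -/
theorem DNeq_factorial_subset_DSim_zero : DNeq (fun n => 2 ^ n.factorial) ⊆ DSim 0 := by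
  rintro A ⟨x, hAx, hx⟩
  set c : ℕ → ℕ := fun m => 1 - bit (x (bN m)) (m - st (bN m)) with hc
  set X : Set ℕ := {m | c m ≠ 0} with hX
  have hchi : chi X = c := by
    funext m
    have hle : c m ≤ 1 := Nat.sub_le _ _
    by_cases h : c m = 0
    · have h1 : m ∉ X := fun h' => h' h
      have h2 : chi X m = 0 := by
        by_contra h3
        exact h1 ((chi_ne_zero X m).1 h3)
      rw [h2, h]
    · have h1 : m ∈ X := h
      have h2 : chi X m = 1 := by simp [chi, h1]
      rw [h2]
      omega
  have hAc : Computes A c := by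
    have h1 : Computable (fun m : ℕ => bN m + 1) :=
      (Primrec.succ.comp (primrec_bN Primrec.id)).to_comp
    have h2 := Computes.of_prefix hAx H1 primrec_H1.to_comp _ h1
    have h3 : (fun n => H1 (n, (List.range (bN n + 1)).map x)) = c := by
      funext n
      have : ((List.range (bN n + 1)).map x).getD (bN n) 0 = x (bN n) :=
        pre_getD x (Nat.lt_succ_self _)
      simp only [H1, this, hc]
    rwa [h3] at h2
  refine ⟨X, by rw [ComputesSet, hchi]; exact hAc, ?_⟩
  intro S hS
  obtain ⟨s, hs, hsS⟩ := exists_computable_char hS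
  set y : ℕ → ℕ := fun n => bsum (fun j => s (st n + j)) n.factorial with hy
  have hycomp : Computable y := by
    refine computable_bsum (f := fun n j => s (st n + j)) ?_
      (primrec_factorial Primrec.id).to_comp
    refine hs.comp ?_
    exact (Primrec.nat_add.comp (primrec_st Primrec.fst) Primrec.snd).to_comp
  have hinf := hx y hycomp (fun n => bsum_lt _ _)
  -- at a good `n` the sets disagree on the whole block
  have hdis : ∀ n, x n = y n → (agree X S ∩ Set.Iio (st (n + 1))).ncard ≤ st n := by
    intro n hn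
    have hsub : agree X S ∩ Set.Iio (st (n + 1)) ⊆ Set.Iio (st n) := by
      rintro m ⟨hm1, hm2⟩
      by_contra hm3
      have hm3 : st n ≤ m := Nat.le_of_not_lt hm3
      have hm2 : m < st (n + 1) := hm2
      obtain ⟨j, rfl⟩ : ∃ j, m = st n + j := ⟨m - st n, by omega⟩
      have hj : j < n.factorial := by rw [st_succ] at hm2; omega
      have hb : bN (st n + j) = n := bN_eq hm3 hm2
      have hcm : c (st n + j) = 1 - (if s (st n + j) = 0 then 0 else 1) := by
        simp only [hc, hb, Nat.add_sub_cancel_left, hn, hy]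
        rw [bit_bsum _ hj]
      have hmX : st n + j ∈ X ↔ s (st n + j) = 0 := by
        show c (st n + j) ≠ 0 ↔ _
        rw [hcm]
        by_cases h : s (st n + j) = 0 <;> simp [h]
      have hmS := hsS (st n + j)
      have : st n + j ∈ X ↔ st n + j ∈ S := hm1
      by_cases h : s (st n + j) = 0
      · exact (hmS.2 (this.1 (hmX.2 h))) h
      · exact h (hmX.1 (this.2 (hmS.1 h)))
    calc (agree X S ∩ Set.Iio (st (n + 1))).ncard ≤ (Set.Iio (st n)).ncard :=
          Set.ncard_le_ncard hsub (Set.finite_Iio _)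
      _ = st n := by simp
  refine lowerDensity_le_zero (fun ε hε => ?_)
  rw [Filter.frequently_atTop]
  intro m
  obtain ⟨K, hK⟩ := exists_nat_gt (2 / ε)
  obtain ⟨n, hn, hgt⟩ := hinf.exists_gt (max m (K + 1))
  refine ⟨st (n + 1), ?_, ?_⟩
  · have := le_st (n + 1); omega
  · have h1 := hdis n hn
    have h2 := st_mul_le n
    have hn0 : (0 : ℝ) < n := by
      have : 0 < n := by omega
      exact_mod_cast this
    have h3 : (n : ℝ) * (st n : ℝ) ≤ 2 * (st (n + 1) : ℝ) := by
      have : n * st n ≤ 2 * st (n + 1) := by rw [st_succ]; omega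
      exact_mod_cast this
    have hst : (0 : ℝ) < st (n + 1) := by
      have : 0 < st (n + 1) := by have := le_st (n + 1); omega
      exact_mod_cast this
    have h4 : ((agree X S ∩ Set.Iio (st (n + 1))).ncard : ℝ) ≤ st n := by exact_mod_cast h1
    have hKn : (K : ℝ) < n := by
      have : K < n := by omega
      exact_mod_cast this
    have h5 : 2 < ε * n := by
      have : 2 / ε < n := hK.trans hKn
      rw [div_lt_iff₀ hε] at this
      linarith
    rw [div_le_iff₀ hst]
    have h6 : (n : ℝ) * (st n : ℝ) ≤ n * (ε * (st (n + 1) : ℝ)) := by nlinarith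
    have h7 : (st n : ℝ) ≤ ε * (st (n + 1) : ℝ) := le_of_mul_le_mul_left h6 hn0
    linarith

end Pool.Agent.MP_65fbb9_lc
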