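import Mathlib
import Pool.Agent.Lib.MP_65fbb9_lc.Density

/-!
A greedy (Gilbert–Varshamov) code and the inclusion `D(~_0) ⊆ D(≠*, 2^(2^n))`.
-/

namespace Pool.Agent.MP_65fbb9_lc

open Encodable

/-- Hamming distance of the first `N` binary digits -/
def dist (N u v : ℕ) : ℕ := Nat.count (fun j => bit u j ≠ bit v j) N

theorem dist_zero (u v : ℕ) : dist 0 u v = 0 := rfl

theorem dist_succ (N u v : ℕ) :
    dist (N + 1) u v = dist N u v + if bit u N ≠ bit v N then 1 else 0 := by
  unfold dist; rw [Nat.count_succ]

theorem dist_self (N u : ℕ) : dist N u u = 0 := by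
  induction N with
  | zero => rfl
  | succ N ih => rw [dist_succ, ih]; simp

theorem dist_comm (N u v : ℕ) : dist N u v = dist N v u := by
  induction N with
  | zero => rfl
  | succ N ih => rw [dist_succ, dist_succ, ih]; simp only [ne_comm]

theorem dist_triangle (N u v w : ℕ) : dist N u w ≤ dist N u v + dist N v w := by
  induction N with
  | zero => simp [dist_zero]
  | succ N ih =>
    rw [dist_succ, dist_succ, dist_succ]
    split_ifs <;> omega

theorem dist_le (N u v : ℕ) : dist N u v ≤ N := Nat.count_le _

theorem dist_congr (N u : ℕ) {v w : ℕ} (h : ∀ j < N, bit v j = bit w j) :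
    dist N u v = dist N u w := by
  induction N with
  | zero => rfl
  | succ N ih => rw [dist_succ, dist_succ, ih (fun j hj => h j (by omega)), h N (by omega)]

theorem bit_lt_two (u j : ℕ) : bit u j < 2 := Nat.mod_lt _ (by norm_num)

theorem sum_weights (N u : ℕ) : ∑ v ∈ Finset.range (2 ^ N), 8 ^ (N - dist N u v) = 9 ^ N := by
  induction N with
  | zero => simp [dist_zero]
  | succ N ih =>
    have h2 : 2 ^ (N + 1) = 2 ^ N + 2 ^ N := by rw [pow_succ]; ring
    rw [h2, Finset.sum_range_add, pow_succ 9 N, ← ih, Finset.sum_mul, ← Finset.sum_add_distrib]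
    refine Finset.sum_congr rfl (fun v hv => ?_)
    have hv : v < 2 ^ N := Finset.mem_range.1 hv
    have hd1 : dist (N + 1) u v = dist N u v + if bit u N ≠ 0 then 1 else 0 := by
      rw [dist_succ, bit_of_lt hv]
    have hd2 : dist (N + 1) u (2 ^ N + v) = dist N u v + if bit u N ≠ 1 then 1 else 0 := by
      rw [dist_succ, bit_add_pow_self hv, dist_congr N u (fun j hj => bit_add_pow_of_lt hj)]
    rw [hd1, hd2]
    have hle := dist_le N u v
    have hb := bit_lt_two u N
    have e1 : N + 1 - (dist N u v + 0) = (N - dist N u v) + 1 := by omega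
    have e2 : N + 1 - (dist N u v + 1) = N - dist N u v := by omega
    rcases (by omega : bit u N = 0 ∨ bit u N = 1) with h | h
    · simp only [h, ne_eq, not_true_eq_false, if_false, zero_ne_one, not_false_eq_true, if_true]
      rw [e1, e2, pow_succ]; ring
    · simp only [h, ne_eq, not_true_eq_false, if_false, one_ne_zero, not_false_eq_true, if_true]
      rw [e1, e2, pow_succ]; ring

/-- size of Hamming balls -/
theorem ball_card_mul_le (N r u : ℕ) :
    ((Finset.range (2 ^ N)).filter (fun v => dist N u v ≤ r)).card * 8 ^ (N - r) ≤ 9 ^ N := by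
  rw [← sum_weights N u]
  calc ((Finset.range (2 ^ N)).filter (fun v => dist N u v ≤ r)).card * 8 ^ (N - r)
      = ∑ v ∈ (Finset.range (2 ^ N)).filter (fun v => dist N u v ≤ r), 8 ^ (N - r) := by
        rw [Finset.sum_const, smul_eq_mul]
    _ ≤ ∑ v ∈ (Finset.range (2 ^ N)).filter (fun v => dist N u v ≤ r), 8 ^ (N - dist N u v) := by
        refine Finset.sum_le_sum (fun v hv => ?_)
        have := (Finset.mem_filter.1 hv).2
        exact Nat.pow_le_pow_right (by norm_num) (by omega)
    _ ≤ ∑ v ∈ Finset.range (2 ^ N), 8 ^ (N - dist N u v) :=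
        Finset.sum_le_sum_of_subset (Finset.filter_subset _ _)

theorem ball_card_le (q u : ℕ) :
    ((Finset.range (2 ^ (32 * q))).filter (fun v => dist (32 * q) u v ≤ 2 * q)).card
      ≤ 2 ^ (16 * q) := by
  have h1 := ball_card_mul_le (32 * q) (2 * q) u
  have h2 : 32 * q - 2 * q = 30 * q := by omega
  rw [h2] at h1
  have h3 : 9 ^ (32 * q) ≤ 2 ^ (16 * q) * 8 ^ (30 * q) := by
    rw [pow_mul, pow_mul, pow_mul, ← mul_pow]
    exact Nat.pow_le_pow_left (by norm_num) q
  exact Nat.le_of_mul_le_mul_right (h1.trans h3) (by positivity)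

/-- one step of the greedy construction -/
def gstep (N r : ℕ) (C : List ℕ) (v : ℕ) : List ℕ :=
  if ∀ c ∈ C, r < dist N c v then C ++ [v] else C

/-- the greedy code after `m` steps -/
def greedyUpto (N r m : ℕ) : List ℕ := (List.range m).foldl (gstep N r) []

theorem greedyUpto_succ (N r m : ℕ) :
    greedyUpto N r (m + 1) = gstep N r (greedyUpto N r m) m := by
  unfold greedyUpto
  rw [List.range_succ, List.foldl_append]
  rfl

/-- the greedy code -/
def greedy (N r : ℕ) : List ℕ := greedyUpto N r (2 ^ N)

theorem greedyUpto_pairwise (N r m : ℕ) :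
    (greedyUpto N r m).Pairwise (fun c c' => r < dist N c c') := by
  induction m with
  | zero => simp [greedyUpto]
  | succ m ih =>
    rw [greedyUpto_succ]
    unfold gstep
    split_ifs with h
    · rw [List.pairwise_append]
      refine ⟨ih, by simp, ?_⟩
      intro a ha b hb
      simp only [List.mem_singleton] at hb
      subst hb
      exact h a ha
    · exact ih

theorem greedyUpto_cover (N r m : ℕ) : ∀ v < m, ∃ c ∈ greedyUpto N r m, dist N c v ≤ r := by
  induction m with
  | zero => intro v hv; omega
  | succ m ih =>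
    intro v hv
    rw [greedyUpto_succ]
    unfold gstep
    split_ifs with h
    · rcases Nat.lt_succ_iff_lt_or_eq.1 hv with h1 | h1
      · obtain ⟨c, hc, hd⟩ := ih v h1
        exact ⟨c, List.mem_append_left _ hc, hd⟩
      · subst h1
        exact ⟨v, by simp, by rw [dist_self]; omega⟩
    · rcases Nat.lt_succ_iff_lt_or_eq.1 hv with h1 | h1
      · exact ih v h1
      · subst h1
        simp only [not_forall] at h
        obtain ⟨c, hc, hd⟩ := h
        exact ⟨c, hc, by omega⟩

theorem greedy_length (q : ℕ) : 2 ^ (16 * q) ≤ (greedy (32 * q) (2 * q)).length := by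
  classical
  set C := greedy (32 * q) (2 * q) with hC
  have hsub : Finset.range (2 ^ (32 * q)) ⊆ C.toFinset.biUnion
      (fun c => (Finset.range (2 ^ (32 * q))).filter (fun v => dist (32 * q) c v ≤ 2 * q)) := by
    intro v hv
    obtain ⟨c, hc, hd⟩ := greedyUpto_cover (32 * q) (2 * q) (2 ^ (32 * q)) v (Finset.mem_range.1 hv)
    rw [Finset.mem_biUnion]
    exact ⟨c, List.mem_toFinset.2 hc, Finset.mem_filter.2 ⟨hv, hd⟩⟩
  have h1 := Finset.card_le_card hsub
  rw [Finset.card_range] at h1
  have h2 := Finset.card_biUnion_le_card_mul C.toFinset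
      (fun c => (Finset.range (2 ^ (32 * q))).filter (fun v => dist (32 * q) c v ≤ 2 * q))
      (2 ^ (16 * q)) (fun c _ => ball_card_le q c)
  have h3 : C.toFinset.card ≤ C.length := List.toFinset_card_le C
  have h4 : 2 ^ (32 * q) = 2 ^ (16 * q) * 2 ^ (16 * q) := by rw [← pow_add]; congr 1; ring
  have h5 : 2 ^ (16 * q) * 2 ^ (16 * q) ≤ C.length * 2 ^ (16 * q) := by
    rw [← h4]
    exact (h1.trans h2).trans (Nat.mul_le_mul_right _ h3)
  exact Nat.le_of_mul_le_mul_right h5 (by positivity)

/-- unique decoding -/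
theorem decode_unique {N r d w u : ℕ} (hd : 2 * d ≤ r) (hw : w < (greedy N r).length)
    (hu : dist N ((greedy N r).getD w 0) u ≤ d) :
    (greedy N r).findIdx (fun c => decide (dist N c u ≤ d)) = w := by
  have hg : (greedy N r).getD w 0 = (greedy N r)[w] := by simp [List.getD, hw]
  rw [hg] at hu
  rw [List.findIdx_eq hw]
  refine ⟨by simpa using hu, ?_⟩
  intro j hj
  have hp := List.pairwise_iff_getElem.1 (greedyUpto_pairwise N r (2 ^ N)) j w (hj.trans hw) hw hj
  have hp : r < dist N (greedy N r)[j] (greedy N r)[w] := hp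
  have ht := dist_triangle N (greedy N r)[j] u (greedy N r)[w]
  rw [dist_comm N u] at ht
  simp only [decide_eq_false_iff_not, not_le]
  omega

section comp

variable {α : Type*} [Primcodable α]

theorem primrec_dist {N u v : α → ℕ} (hN : Primrec N) (hu : Primrec u) (hv : Primrec v) :
    Primrec (fun a => dist (N a) (u a) (v a)) := by
  unfold dist
  refine primrec_count ?_ hN
  refine PrimrecPred.not ?_
  exact PrimrecRel.comp Primrec.eq (primrec_bit (hu.comp Primrec.fst) Primrec.snd)
    (primrec_bit (hv.comp Primrec.fst) Primrec.snd)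

theorem primrec_greedy {N r : α → ℕ} (hN : Primrec N) (hr : Primrec r) :
    Primrec (fun a => greedy (N a) (r a)) := by
  have hstep : Primrec₂ (fun (a : α) (q : List ℕ × ℕ) => gstep (N a) (r a) q.1 q.2) := by
    unfold gstep
    have hrel : PrimrecRel (fun (c : ℕ) (q : α × ℕ) => r q.1 < dist (N q.1) c q.2) := by
      refine PrimrecRel.comp Primrec.nat_lt (hr.comp (Primrec.fst.comp Primrec.snd)) ?_
      exact primrec_dist (hN.comp (Primrec.fst.comp Primrec.snd)) Primrec.fst
        (Primrec.snd.comp Primrec.snd)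
    have hall := hrel.forall_mem_list
    have hall' : PrimrecPred (fun (p : α × (List ℕ × ℕ)) =>
        ∀ c ∈ p.2.1, r p.1 < dist (N p.1) c p.2.2) :=
      PrimrecRel.comp hall (Primrec.fst.comp Primrec.snd)
        (Primrec.fst.pair (Primrec.snd.comp Primrec.snd))
    refine Primrec.ite hall' ?_ (Primrec.fst.comp Primrec.snd)
    exact Primrec.list_append.comp (Primrec.fst.comp Primrec.snd)
      (Primrec.list_cons.comp (Primrec.snd.comp Primrec.snd) (Primrec.const []))
  unfold greedy greedyUpto
  exact Primrec.list_foldl (Primrec.list_range.comp (primrec_pow 2 hN)) (Primrec.const []) hstep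

end comp

end Pool.Agent.MP_65fbb9_lc
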