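import Mathlib
import Pool.Agent.Lib.MP_65fbb9_lc.Code

/-!
`D(~_0) ⊆ D(≠*, 2^(2^n))`.
-/

namespace Pool.Agent.MP_65fbb9_lc

open Encodable

/-- code used in block `n` -/
def gcode (n : ℕ) : List ℕ := greedy (2 ^ (n + 1)) (2 ^ (n + 1) / 16)

/-- number of the block `[2^(n+1), 2^(n+2))` containing `m` -/
def bL (m : ℕ) : ℕ := Nat.findGreatest (fun n => 2 ^ (n + 1) ≤ m) m

theorem bL_eq {n m : ℕ} (h1 : 2 ^ (n + 1) ≤ m) (h2 : m < 2 ^ (n + 2)) : bL m = n := by
  unfold bL
  have hk : n ≤ m := by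
    have : n + 1 < 2 ^ (n + 1) := Nat.lt_pow_self (by norm_num)
    omega
  apply le_antisymm
  · by_contra hlt
    have hlt := Nat.lt_of_not_le hlt
    have h3 := Nat.findGreatest_spec (P := fun n => 2 ^ (n + 1) ≤ m) hk h1
    have h4 : 2 ^ (n + 2) ≤ 2 ^ (Nat.findGreatest (fun n => 2 ^ (n + 1) ≤ m) m + 1) :=
      Nat.pow_le_pow_right (by norm_num) (by omega)
    omega
  · exact Nat.le_findGreatest hk h1

section comp

variable {α : Type*} [Primcodable α]

theorem primrec_bL {n : α → ℕ} (hn : Primrec n) : Primrec (fun a => bL (n a)) := by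
  unfold bL
  refine Primrec.nat_findGreatest hn ?_
  exact PrimrecRel.comp Primrec.nat_le (primrec_pow 2 (Primrec.succ.comp Primrec.snd))
    (hn.comp Primrec.fst)

theorem primrec_gcode {n : α → ℕ} (hn : Primrec n) : Primrec (fun a => gcode (n a)) := by
  unfold gcode
  have h := primrec_pow 2 (Primrec.succ.comp hn)
  exact primrec_greedy h (Primrec.nat_div.comp h (Primrec.const 16))

end comp

/-- the number whose bits are the complement of the list entries in block `n` -/
def ublock (L : List ℕ) (n : ℕ) : ℕ :=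
  bsum (fun j => 1 - L.getD (2 ^ (n + 1) + j) 0) (2 ^ (n + 1))

/-- the decoding functional -/
def H2 (p : ℕ × List ℕ) : ℕ :=
  (gcode p.1).findIdx
    (fun c => decide (dist (2 ^ (p.1 + 1)) c (ublock p.2 p.1) ≤ 2 ^ (p.1 + 1) / 32))

theorem computable_ublock : Computable (fun p : ℕ × List ℕ => ublock p.2 p.1) := by
  unfold ublock
  refine computable_bsum (f := fun (p : ℕ × List ℕ) j => 1 - p.2.getD (2 ^ (p.1 + 1) + j) 0) ?_ ?_
  · refine Primrec.to_comp ?_
    refine Primrec.nat_sub.comp (Primrec.const 1) ?_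
    refine (Primrec.list_getD 0).comp (Primrec.snd.comp Primrec.fst) ?_
    exact Primrec.nat_add.comp (primrec_pow 2 (Primrec.succ.comp (Primrec.fst.comp Primrec.fst)))
      Primrec.snd
  · exact (primrec_pow 2 (Primrec.succ.comp Primrec.fst)).to_comp

theorem computable_H2 : Computable H2 := by
  have h : Primrec (fun q : (ℕ × List ℕ) × ℕ => (gcode q.1.1).findIdx
      (fun c => decide (dist (2 ^ (q.1.1 + 1)) c q.2 ≤ 2 ^ (q.1.1 + 1) / 32))) := by
    have hn : Primrec (fun q : (ℕ × List ℕ) × ℕ => q.1.1) := Primrec.fst.comp Primrec.fst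
    refine Primrec.list_findIdx (primrec_gcode hn) ?_
    have hN : Primrec (fun q : ((ℕ × List ℕ) × ℕ) × ℕ => 2 ^ (q.1.1.1 + 1)) :=
      primrec_pow 2 (Primrec.succ.comp (hn.comp Primrec.fst))
    exact (PrimrecRel.comp Primrec.nat_le
      (primrec_dist hN Primrec.snd (Primrec.snd.comp Primrec.fst))
      (Primrec.nat_div.comp hN (Primrec.const 32))).decide
  exact (h.to_comp.comp (Computable.id.pair computable_ublock)).of_eq (fun _ => rfl)

theorem gcode_decode {n w u : ℕ} (hw : w < (gcode n).length)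
    (hu : dist (2 ^ (n + 1)) ((gcode n).getD w 0) u ≤ 2 ^ (n + 1) / 32) :
    (gcode n).findIdx (fun c => decide (dist (2 ^ (n + 1)) c u ≤ 2 ^ (n + 1) / 32)) = w :=
  decode_unique (by omega) hw hu

theorem gcode_length {n : ℕ} (hn : 4 ≤ n) : 2 ^ (2 ^ n) ≤ (gcode n).length := by
  obtain ⟨k, rfl⟩ : ∃ k, n = 4 + k := ⟨n - 4, by omega⟩
  have h1 : 2 ^ (4 + k) = 16 * 2 ^ k := by rw [pow_add]; norm_num
  have h2 : 2 ^ (4 + k + 1) = 32 * 2 ^ k := by rw [pow_succ, h1]; ring
  have h3 : 32 * 2 ^ k / 16 = 2 * 2 ^ k := by omega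
  unfold gcode
  rw [h2, h3, h1]
  exact greedy_length (2 ^ k)

attribute [irreducible] gcode

theorem ratio_bdd_above (Z : Set ℕ) : Filter.IsBoundedUnder (· ≤ ·) Filter.atTop
    (fun n : ℕ => ((Z ∩ Set.Iio n).ncard : ℝ) / (n : ℝ)) := by
  refine Filter.isBoundedUnder_of ⟨1, fun n => ?_⟩
  have h1 : (Z ∩ Set.Iio n).ncard ≤ n := by
    calc (Z ∩ Set.Iio n).ncard ≤ (Set.Iio n).ncard :=
          Set.ncard_le_ncard Set.inter_subset_right (Set.finite_Iio _)
      _ = n := by simp
  exact div_le_one_of_le₀ (by exact_mod_cast h1) (by positivity)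

/-- `D(~_0) ⊆ D(≠*, 2^(2^n))`. -/
theorem DSim_zero_subset_DNeq_pow : DSim 0 ⊆ DNeq (fun n => 2 ^ (2 ^ n)) := by
  rintro A ⟨X, hAX, hX⟩
  set z : ℕ → ℕ := fun n => H2 (n, pre (chi X) (2 ^ (n + 2))) with hz
  have hAz : Computes A z :=
    Computes.of_prefix hAX H2 computable_H2 _
      (primrec_pow 2 (Primrec.succ.comp (Primrec.succ.comp Primrec.id))).to_comp
  refine ⟨z, hAz, ?_⟩
  intro y hy hylt
  set s : ℕ → ℕ := fun m => bit ((gcode (bL m)).getD (y (bL m)) 0) (m - 2 ^ (bL m + 1)) with hs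
  have hscomp : Computable s := by
    have h1 : Computable bL := (primrec_bL Primrec.id).to_comp
    have h2 : Primrec (fun q : ℕ × ℕ => bit ((gcode (bL q.1)).getD q.2 0) (q.1 - 2 ^ (bL q.1 + 1))) := by
      have hb := primrec_bL (Primrec.fst (α := ℕ) (β := ℕ))
      exact primrec_bit ((Primrec.list_getD 0).comp (primrec_gcode hb) Primrec.snd)
        (Primrec.nat_sub.comp Primrec.fst (primrec_pow 2 (Primrec.succ.comp hb)))
    exact h2.to_comp.comp (Computable.id.pair (hy.comp h1))
  set S : Set ℕ := {m | s m ≠ 0} with hS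
  have hSc : ComputablePred (fun n => n ∈ S) := computablePred_of_char hscomp
  have hdens := hX S hSc
  -- the key: few agreements in block `n` force a correct guess at `n`
  have key : ∀ n, 4 ≤ n → (agree X S ∩ Set.Iio (2 ^ (n + 2))).ncard ≤ 2 ^ (n + 1) / 32 →
      z n = y n := by
    intro n hn hcard
    set N := 2 ^ (n + 1) with hN
    have hN2 : 2 ^ (n + 2) = N + N := by rw [hN, pow_succ 2 (n + 1)]; ring
    set L := pre (chi X) (2 ^ (n + 2)) with hL
    set w := (gcode n).getD (y n) 0 with hw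
    have hylen : y n < (gcode n).length := (hylt n).trans_le (gcode_length hn)
    have hdist : dist N w (ublock L n) ≤ N / 32 := by
      refine le_trans ?_ hcard
      unfold dist
      rw [Nat.count_eq_card_filter_range]
      rw [← Finset.card_image_of_injective _ (add_right_injective N), ← Set.ncard_coe_finset]
      refine Set.ncard_le_ncard ?_ ((Set.finite_Iio _).subset Set.inter_subset_right)
      intro m hm
      rw [Finset.mem_coe, Finset.mem_image] at hm
      obtain ⟨j, hj, rfl⟩ := hm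
      rw [Finset.mem_filter, Finset.mem_range] at hj
      obtain ⟨hjN, hne⟩ := hj
      have hlt : N + j < 2 ^ (n + 2) := by omega
      have hbL : bL (N + j) = n := bL_eq (by omega) hlt
      have hsj : s (N + j) = bit w j := by
        simp only [hs, hbL]
        rw [← hN, Nat.add_sub_cancel_left]
      have huj : bit (ublock L n) j = if 1 - chi X (N + j) = 0 then 0 else 1 := by
        unfold ublock
        rw [bit_bsum _ hjN, ← hN, hL, pre_getD _ hlt]
      refine ⟨?_, hlt⟩
      show N + j ∈ X ↔ N + j ∈ S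
      have hchi := chi_ne_zero X (N + j)
      have hb2 := bit_lt_two w j
      by_cases hXj : N + j ∈ X
      · have h1 := hchi.2 hXj
        have h2 : 1 - chi X (N + j) = 0 := by omega
        rw [if_pos h2] at huj
        rw [huj] at hne
        simp only [hXj, true_iff]
        show s (N + j) ≠ 0
        rw [hsj]; exact hne
      · have h1 : chi X (N + j) = 0 := by
          by_contra h; exact hXj (hchi.1 h)
        have h2 : ¬ (1 - chi X (N + j) = 0) := by omega
        rw [if_neg h2] at huj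
        rw [huj] at hne
        simp only [hXj, false_iff]
        show ¬ (s (N + j) ≠ 0)
        rw [hsj]; omega
    exact gcode_decode hylen hdist
  refine Set.infinite_of_not_bddAbove ?_
  rintro ⟨M, hM⟩
  have hfreq : ∃ᶠ m : ℕ in Filter.atTop,
      ((agree X S ∩ Set.Iio m).ncard : ℝ) / (m : ℝ) < 1 / 256 := by
    refine Filter.frequently_lt_of_liminf_lt ?_ ?_
    · exact (ratio_bdd_above (agree X S)).isCoboundedUnder_ge
    · exact lt_of_le_of_lt hdens (by norm_num)
  rw [Filter.frequently_atTop] at hfreq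
  obtain ⟨m, hm1, hm2⟩ := hfreq (2 ^ (M + 8))
  have hm0 : m ≠ 0 := by
    have : 0 < 2 ^ (M + 8) := by positivity
    omega
  set l := Nat.log 2 m with hl
  have hl1 : M + 8 ≤ l := Nat.le_log_of_pow_le (by norm_num) hm1
  have hl2 : 2 ^ l ≤ m := Nat.pow_log_le_self 2 hm0
  have hl3 : m < 2 ^ (l + 1) := Nat.lt_pow_succ_log_self (by norm_num) m
  obtain ⟨n, hn⟩ : ∃ n, l = n + 2 := ⟨l - 2, by omega⟩
  have hcard : (agree X S ∩ Set.Iio (2 ^ (n + 2))).ncard ≤ 2 ^ (n + 1) / 32 := by
    have h1 : (agree X S ∩ Set.Iio (2 ^ (n + 2))).ncard ≤ (agree X S ∩ Set.Iio m).ncard := by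
      refine Set.ncard_le_ncard ?_ ((Set.finite_Iio _).subset Set.inter_subset_right)
      refine Set.inter_subset_inter_right _ ?_
      exact Set.Iio_subset_Iio (by rw [← hn]; exact hl2)
    have hmpos : (0 : ℝ) < m := by exact_mod_cast Nat.pos_of_ne_zero hm0
    rw [div_lt_iff₀ hmpos] at hm2
    have h2 : ((agree X S ∩ Set.Iio m).ncard : ℝ) * 256 < m := by linarith
    have h3 : (agree X S ∩ Set.Iio m).ncard * 256 < m := by exact_mod_cast h2
    have h4 : 2 ^ (l + 1) = 4 * 2 ^ (n + 1) := by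
      rw [hn]
      rw [show n + 2 + 1 = (n + 1) + 2 by ring, pow_add]; ring
    have h5 : 32 ∣ 2 ^ (n + 1) := by
      have : (32 : ℕ) = 2 ^ 5 := by norm_num
      rw [this]
      exact pow_dvd_pow 2 (by omega)
    obtain ⟨c, hc⟩ := h5
    rw [hc, Nat.mul_div_cancel_left _ (by norm_num)]
    rw [hc] at h4
    omega
  have := hM (key n (by omega) hcard)
  omega

end Pool.Agent.MP_65fbb9_lc
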